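import Mathlib

/-! # Project MC of helper286, job GS: a sum with greatest common divisors, the inner sum -/

set_option autoImplicit false

namespace Pool.Agent.Q285.MC

open Finset

/-- the sum over the solutions of `d₁ m₁ = d₂ m₂` -/
theorem inner_sum {A : ℕ → ℝ} {S ε : ℝ} (hε : 0 ≤ ε) (hA0 : ∀ d, 0 ≤ A d)
    (hAm : ∀ u v, A (u * v) ≤ A u * A v) (hAe : ∀ d, A d ≤ (d:ℝ) ^ ε)
    (hS : ∀ X : ℕ, ∑ d ∈ Icc 1 X, A d ^ 2 / (d : ℝ) ≤ S) (D m1 m2 : ℕ) (h1 : 1 ≤ m1)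
    (h2 : 1 ≤ m2) :
    ∑ d ∈ (Icc 1 D ×ˢ Icc 1 D).filter (fun d => d.1 * m1 = d.2 * m2),
      A d.1 * A d.2 / ((d.1 : ℝ) * m1) ≤
      S * ((Nat.gcd m1 m2 : ℝ) * ((m1:ℝ) ^ (ε - 1) * (m2:ℝ) ^ (ε - 1))) := by
  classical
  have hS0 : 0 ≤ S := by simpa using hS 0
  obtain ⟨g, a1, a2, hg, hco, e1, e2⟩ := Nat.exists_coprime' (m := m1) (n := m2)
    (Nat.gcd_pos_of_pos_left _ h1)
  have hgg : g = Nat.gcd m1 m2 := by
    rw [e1, e2, Nat.gcd_mul_right, hco.gcd_eq_one, one_mul]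
  have ha1 : 0 < a1 := Nat.pos_of_ne_zero (by rintro rfl; simp at e1; omega)
  have ha2 : 0 < a2 := Nat.pos_of_ne_zero (by rintro rfl; simp at e2; omega)
  have hg0 : 0 < g := hg
  have hsub : (Icc 1 D ×ˢ Icc 1 D).filter (fun d => d.1 * m1 = d.2 * m2) ⊆
      (Icc 1 D).image (fun e => (a2 * e, a1 * e)) := by
    intro d hd
    rw [mem_filter, mem_product, mem_Icc, mem_Icc] at hd
    obtain ⟨⟨hd1, hd2⟩, hd3⟩ := hd
    have h3 : d.1 * a1 = d.2 * a2 := by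
      have h4 : g * (d.1 * a1) = g * (d.2 * a2) := by
        calc g * (d.1 * a1) = d.1 * (a1 * g) := by ring
          _ = d.2 * (a2 * g) := by rw [← e1, ← e2, hd3]
          _ = g * (d.2 * a2) := by ring
      exact Nat.eq_of_mul_eq_mul_left hg0 h4
    have h5 : a2 ∣ d.1 := by
      have h6 : a2 ∣ d.1 * a1 := ⟨d.2, by rw [h3]; ring⟩
      exact hco.symm.dvd_of_dvd_mul_right h6
    obtain ⟨e, he⟩ := h5
    rw [mem_image]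
    refine ⟨e, ?_, ?_⟩
    · rw [mem_Icc]
      constructor
      · rcases Nat.eq_zero_or_pos e with h0 | h0
        · rw [h0] at he
          omega
        · exact h0
      · calc e ≤ a2 * e := Nat.le_mul_of_pos_left _ ha2
          _ = d.1 := he.symm
          _ ≤ D := hd1.2
    · refine Prod.ext he.symm ?_
      rw [he] at h3
      have h7 : a2 * (a1 * e) = a2 * d.2 := by
        calc a2 * (a1 * e) = a2 * e * a1 := by ring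
          _ = d.2 * a2 := h3
          _ = a2 * d.2 := by ring
      exact Nat.eq_of_mul_eq_mul_left ha2 h7
  refine (sum_le_sum_of_subset_of_nonneg hsub fun d _ _ =>
    div_nonneg (mul_nonneg (hA0 _) (hA0 _)) (by positivity)).trans ?_
  rw [sum_image (fun x _ y _ hxy => Nat.eq_of_mul_eq_mul_left ha2 (Prod.mk.inj hxy).1)]
  have hg' : (0:ℝ) < g := by exact_mod_cast hg0
  have ha1' : (0:ℝ) < a1 := by exact_mod_cast ha1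
  have ha2' : (0:ℝ) < a2 := by exact_mod_cast ha2
  have hm1 : (m1:ℝ) = a1 * g := by rw [e1]; push_cast; ring
  have hm2 : (m2:ℝ) = a2 * g := by rw [e2]; push_cast; ring
  have hstep : ∀ e ∈ Icc 1 D, A (a2 * e) * A (a1 * e) / (((a2 * e : ℕ) : ℝ) * m1) ≤
      (A e ^ 2 / (e:ℝ)) * ((Nat.gcd m1 m2 : ℝ) * ((m1:ℝ) ^ (ε - 1) * (m2:ℝ) ^ (ε - 1))) := by
    intro e he
    rw [mem_Icc] at he
    have he' : (0:ℝ) < e := by exact_mod_cast he.1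
    have h3 : A (a2 * e) * A (a1 * e) ≤ ((a2:ℝ) ^ ε * A e) * ((a1:ℝ) ^ ε * A e) :=
      mul_le_mul ((hAm _ _).trans (mul_le_mul_of_nonneg_right (hAe a2) (hA0 e)))
        ((hAm _ _).trans (mul_le_mul_of_nonneg_right (hAe a1) (hA0 e))) (hA0 _)
        (mul_nonneg (by positivity) (hA0 _))
    have h4 : (g:ℝ) ^ (1:ℝ) * ((a1:ℝ) ^ (ε - 1) * (a2:ℝ) ^ (ε - 1)) * (g:ℝ) ^ (-(2:ℝ)) ≤
        (Nat.gcd m1 m2 : ℝ) * ((m1:ℝ) ^ (ε - 1) * (m2:ℝ) ^ (ε - 1)) := by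
      rw [← hgg, hm1, hm2, Real.mul_rpow ha1'.le hg'.le, Real.mul_rpow ha2'.le hg'.le,
        Real.rpow_one]
      have h5 : (g:ℝ) ^ (-(2:ℝ)) ≤ (g:ℝ) ^ (ε - 1) * (g:ℝ) ^ (ε - 1) := by
        rw [← Real.rpow_add hg']
        exact Real.rpow_le_rpow_of_exponent_le (by exact_mod_cast hg0) (by linarith)
      calc (g:ℝ) * ((a1:ℝ) ^ (ε - 1) * (a2:ℝ) ^ (ε - 1)) * (g:ℝ) ^ (-(2:ℝ)) ≤
          (g:ℝ) * ((a1:ℝ) ^ (ε - 1) * (a2:ℝ) ^ (ε - 1)) *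
            ((g:ℝ) ^ (ε - 1) * (g:ℝ) ^ (ε - 1)) :=
            mul_le_mul_of_nonneg_left h5 (by positivity)
        _ = (g:ℝ) * (((a1:ℝ) ^ (ε - 1) * (g:ℝ) ^ (ε - 1)) *
            ((a2:ℝ) ^ (ε - 1) * (g:ℝ) ^ (ε - 1))) := by ring
    have h6 : ((a2:ℝ) ^ ε * A e) * ((a1:ℝ) ^ ε * A e) / (((a2 * e : ℕ) : ℝ) * m1) =
        (A e ^ 2 / (e:ℝ)) *
          ((g:ℝ) ^ (1:ℝ) * ((a1:ℝ) ^ (ε - 1) * (a2:ℝ) ^ (ε - 1)) * (g:ℝ) ^ (-(2:ℝ))) := by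
      rw [hm1, Real.rpow_one, Real.rpow_sub ha1', Real.rpow_sub ha2', Real.rpow_one, Real.rpow_one,
        Real.rpow_neg hg'.le, show (2:ℝ) = ((2:ℕ):ℝ) by norm_num, Real.rpow_natCast]
      push_cast
      field_simp
    calc A (a2 * e) * A (a1 * e) / (((a2 * e : ℕ) : ℝ) * m1) ≤
        ((a2:ℝ) ^ ε * A e) * ((a1:ℝ) ^ ε * A e) / (((a2 * e : ℕ) : ℝ) * m1) :=
          div_le_div_of_nonneg_right h3 (by positivity)
      _ = _ := h6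
      _ ≤ _ := mul_le_mul_of_nonneg_left h4 (by positivity)
  refine (sum_le_sum hstep).trans ?_
  rw [← sum_mul]
  exact mul_le_mul_of_nonneg_right (hS D) (by positivity)

/-- the whole sum -/
theorem gs_core {τ ε C : ℝ} (hτ : 0 < τ) (hε : 0 ≤ ε) (hετ : ε ≤ τ / 2)
    (hC : ∀ N : ℕ, ∑ h ∈ Icc 1 N, ∑ l ∈ Icc 1 N, (Nat.gcd h l : ℝ) *
      ((h : ℝ) ^ (-(1 + τ / 4)) * (l : ℝ) ^ (-(1 + τ / 4))) ≤ C)
    (A b : ℕ → ℝ) (S : ℝ) (M0 D N : ℕ) (hM0 : 1 ≤ M0) (hA0 : ∀ d, 0 ≤ A d)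
    (hAm : ∀ u v, A (u * v) ≤ A u * A v) (hAe : ∀ d, A d ≤ (d:ℝ) ^ ε)
    (hS : ∀ X : ℕ, ∑ d ∈ Icc 1 X, A d ^ 2 / (d : ℝ) ≤ S) (hb0 : ∀ m, 0 ≤ b m)
    (hb : ∀ m : ℕ, 1 ≤ m → b m ≤ (m:ℝ) ^ (-τ)) (hbM : ∀ m ≤ M0, b m = 0) :
    ∑ q ∈ Icc 1 (D * N), (∑ x ∈ (Icc 1 D ×ˢ Icc 1 N).filter (fun x => x.1 * x.2 = q),
      A x.1 * b x.2) ^ 2 / (q : ℝ) ≤ C * (M0:ℝ) ^ (-(τ / 2)) * S := by
  classical
  have hS0 : 0 ≤ S := by simpa using hS 0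
  set F : Finset (ℕ × ℕ) := Icc 1 D ×ˢ Icc 1 N with hF
  -- first step: open the square
  have h1 : ∀ q ∈ Icc 1 (D * N), (∑ x ∈ F.filter (fun x => x.1 * x.2 = q), A x.1 * b x.2) ^ 2 /
      (q : ℝ) = ∑ x ∈ F.filter (fun x => x.1 * x.2 = q),
        ∑ y ∈ F.filter (fun y => y.1 * y.2 = x.1 * x.2),
          (A x.1 * b x.2) * (A y.1 * b y.2) / ((x.1 : ℝ) * x.2) := by
    intro q _
    rw [sq, sum_mul_sum, sum_div]
    refine sum_congr rfl fun x hx => ?_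
    rw [mem_filter] at hx
    rw [sum_div, hx.2]
    refine sum_congr rfl fun y _ => ?_
    have h2 : (q:ℝ) = (x.1 : ℝ) * x.2 := by rw [← hx.2]; push_cast; ring
    rw [h2]
  rw [sum_congr rfl h1]
  have hmaps : ∀ x ∈ F, x.1 * x.2 ∈ Icc 1 (D * N) := by
    intro x hx
    rw [hF, mem_product, mem_Icc, mem_Icc] at hx
    rw [mem_Icc]
    exact ⟨Nat.mul_pos hx.1.1 hx.2.1, Nat.mul_le_mul hx.1.2 hx.2.2⟩
  rw [sum_fiberwise_of_maps_to hmaps]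
  -- second step: sum over the pairs of m
  have h3 : ∑ x ∈ F, ∑ y ∈ F.filter (fun y => y.1 * y.2 = x.1 * x.2),
      (A x.1 * b x.2) * (A y.1 * b y.2) / ((x.1 : ℝ) * x.2) =
      ∑ m1 ∈ Icc 1 N, ∑ m2 ∈ Icc 1 N, (b m1 * b m2) *
        ∑ d ∈ (Icc 1 D ×ˢ Icc 1 D).filter (fun d => d.1 * m1 = d.2 * m2),
          A d.1 * A d.2 / ((d.1 : ℝ) * m1) := by
    simp only [sum_filter, mul_sum, hF, sum_product]
    rw [sum_comm]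
    refine sum_congr rfl fun m1 _ => ?_
    have h4 : ∀ d1 ∈ Icc 1 D, (∑ d2 ∈ Icc 1 D, ∑ m2 ∈ Icc 1 N,
        if d2 * m2 = d1 * m1 then (A d1 * b m1) * (A d2 * b m2) / ((d1 : ℝ) * m1) else 0) =
        ∑ m2 ∈ Icc 1 N, ∑ d2 ∈ Icc 1 D,
        if d2 * m2 = d1 * m1 then (A d1 * b m1) * (A d2 * b m2) / ((d1 : ℝ) * m1) else 0 :=
      fun d1 _ => sum_comm
    rw [sum_congr rfl h4, sum_comm]
    refine sum_congr rfl fun m2 _ => sum_congr rfl fun d1 _ => sum_congr rfl fun d2 _ => ?_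
    by_cases h5 : d2 * m2 = d1 * m1
    · rw [if_pos h5, if_pos h5.symm]
      ring
    · rw [if_neg h5, if_neg fun h => h5 h.symm, mul_zero]
  rw [h3]
  -- third step
  have hM0' : (0:ℝ) < M0 := by exact_mod_cast hM0
  have h4 : ∀ m1 ∈ Icc 1 N, ∀ m2 ∈ Icc 1 N, (b m1 * b m2) *
        ∑ d ∈ (Icc 1 D ×ˢ Icc 1 D).filter (fun d => d.1 * m1 = d.2 * m2),
          A d.1 * A d.2 / ((d.1 : ℝ) * m1) ≤
      ((M0:ℝ) ^ (-(τ / 2)) * S) * ((Nat.gcd m1 m2 : ℝ) *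
        ((m1 : ℝ) ^ (-(1 + τ / 4)) * (m2 : ℝ) ^ (-(1 + τ / 4)))) := by
    intro m1 hm1 m2 hm2
    rw [mem_Icc] at hm1 hm2
    have p1 : (0:ℝ) < m1 := by exact_mod_cast hm1.1
    have p2 : (0:ℝ) < m2 := by exact_mod_cast hm2.1
    by_cases q1 : m1 ≤ M0
    · rw [hbM m1 q1, zero_mul, zero_mul]
      positivity
    by_cases q2 : m2 ≤ M0
    · rw [hbM m2 q2, mul_zero, zero_mul]
      positivity
    push Not at q1 q2
    have key : ∀ m : ℕ, 1 ≤ m → M0 < m → b m * (m:ℝ) ^ (ε - 1) ≤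
        (M0:ℝ) ^ (-(τ / 4)) * (m:ℝ) ^ (-(1 + τ / 4)) := by
      intro m hm hm'
      have pm : (0:ℝ) < m := by exact_mod_cast hm
      have pm1 : (1:ℝ) ≤ m := by exact_mod_cast hm
      calc b m * (m:ℝ) ^ (ε - 1) ≤ (m:ℝ) ^ (-τ) * (m:ℝ) ^ (ε - 1) :=
            mul_le_mul_of_nonneg_right (hb m hm) (by positivity)
        _ = (m:ℝ) ^ (-τ + (ε - 1)) := (Real.rpow_add pm _ _).symm
        _ ≤ (m:ℝ) ^ (-(τ / 4) + -(1 + τ / 4)) :=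
            Real.rpow_le_rpow_of_exponent_le pm1 (by linarith)
        _ = (m:ℝ) ^ (-(τ / 4)) * (m:ℝ) ^ (-(1 + τ / 4)) := Real.rpow_add pm _ _
        _ ≤ (M0:ℝ) ^ (-(τ / 4)) * (m:ℝ) ^ (-(1 + τ / 4)) := by
            refine mul_le_mul_of_nonneg_right ?_ (by positivity)
            exact Real.rpow_le_rpow_of_nonpos hM0' (by exact_mod_cast hm'.le) (by linarith)
    have hMM : (M0:ℝ) ^ (-(τ / 2)) = (M0:ℝ) ^ (-(τ / 4)) * (M0:ℝ) ^ (-(τ / 4)) := by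
      rw [← Real.rpow_add hM0']
      congr 1
      ring
    calc (b m1 * b m2) * ∑ d ∈ (Icc 1 D ×ˢ Icc 1 D).filter (fun d => d.1 * m1 = d.2 * m2),
          A d.1 * A d.2 / ((d.1 : ℝ) * m1) ≤
        (b m1 * b m2) * (S * ((Nat.gcd m1 m2 : ℝ) * ((m1:ℝ) ^ (ε - 1) * (m2:ℝ) ^ (ε - 1)))) :=
          mul_le_mul_of_nonneg_left (inner_sum hε hA0 hAm hAe hS D m1 m2 hm1.1 hm2.1)
            (mul_nonneg (hb0 _) (hb0 _))
      _ = (S * (Nat.gcd m1 m2 : ℝ)) * ((b m1 * (m1:ℝ) ^ (ε - 1)) * (b m2 * (m2:ℝ) ^ (ε - 1))) := by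
          ring
      _ ≤ (S * (Nat.gcd m1 m2 : ℝ)) * (((M0:ℝ) ^ (-(τ / 4)) * (m1:ℝ) ^ (-(1 + τ / 4))) *
            ((M0:ℝ) ^ (-(τ / 4)) * (m2:ℝ) ^ (-(1 + τ / 4)))) :=
          mul_le_mul_of_nonneg_left (mul_le_mul (key m1 hm1.1 q1) (key m2 hm2.1 q2)
            (mul_nonneg (hb0 _) (by positivity)) (by positivity)) (by positivity)
      _ = ((M0:ℝ) ^ (-(τ / 2)) * S) * ((Nat.gcd m1 m2 : ℝ) *
        ((m1 : ℝ) ^ (-(1 + τ / 4)) * (m2 : ℝ) ^ (-(1 + τ / 4)))) := by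
          rw [hMM]
          ring
  calc ∑ m1 ∈ Icc 1 N, ∑ m2 ∈ Icc 1 N, (b m1 * b m2) *
        ∑ d ∈ (Icc 1 D ×ˢ Icc 1 D).filter (fun d => d.1 * m1 = d.2 * m2),
          A d.1 * A d.2 / ((d.1 : ℝ) * m1) ≤
      ∑ m1 ∈ Icc 1 N, ∑ m2 ∈ Icc 1 N, ((M0:ℝ) ^ (-(τ / 2)) * S) * ((Nat.gcd m1 m2 : ℝ) *
        ((m1 : ℝ) ^ (-(1 + τ / 4)) * (m2 : ℝ) ^ (-(1 + τ / 4)))) :=
        sum_le_sum fun m1 hm1 => sum_le_sum fun m2 hm2 => h4 m1 hm1 m2 hm2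
    _ = ((M0:ℝ) ^ (-(τ / 2)) * S) * ∑ m1 ∈ Icc 1 N, ∑ m2 ∈ Icc 1 N, (Nat.gcd m1 m2 : ℝ) *
        ((m1 : ℝ) ^ (-(1 + τ / 4)) * (m2 : ℝ) ^ (-(1 + τ / 4))) := by
        simp only [mul_sum]
    _ ≤ ((M0:ℝ) ^ (-(τ / 2)) * S) * C := mul_le_mul_of_nonneg_left (hC N) (by positivity)
    _ = C * (M0:ℝ) ^ (-(τ / 2)) * S := by ring

end Pool.Agent.Q285.MC
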