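import Pool.Agent.Q286.MC.Defs
import Pool.Agent.Q286.SB.Gcd
import Pool.Agent.Q285.MC.GsCore

/-! # Project MC of helper286, job GS -/

set_option autoImplicit false

namespace Pool.Agent.Q285.MC

/-- **Job GS.** -/
theorem gs : Pool.Agent.Q286.MC.P_GS := by
  intro τ ε hτ hε hετ
  obtain ⟨C, hC0, hC⟩ := Pool.Agent.Q286.SB.gcd_sum (a := 1 + τ / 4) (by linarith)
  exact ⟨C, hC0, fun A b S M0 D N hM0 hA0 hAm hAe hS hb0 hb hbM =>
    gs_core hτ hε hετ hC A b S M0 D N hM0 hA0 hAm hAe hS hb0 hb hbM⟩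

end Pool.Agent.Q285.MC
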