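import Pool.Agent.Q286.MC.Defs
import Pool.Agent.TH126.LK_PT

/-! # Project MC of helper286, job KEY: the pointwise comparison with an exceptional set -/

set_option autoImplicit false

namespace Pool.Agent.Q285.MC

open Finset Filter Topology MeasureTheory Complex MonoidAlgebra
open Pool.Agent.W184.NZ
open Pool.Agent.TH806 Pool.Agent.TH806.LK
open Pool.Agent.H306R2.SM (om cl Yf)
open Pool.Agent.H262R4.TM (Rng Ck)

noncomputable section

/-- **Job KEY.** -/
theorem key : Pool.Agent.Q286.MC.P_KEY := by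
  intro n Rs J I hI hn hRs κ T hδ E h hE hh1 hhn u k lam B' c' M' hk hlam hB' hc' hM'
  classical
  obtain ⟨hP1, hP2⟩ := Pool.Agent.TH126.LK_PT.t_PT
  have hhc : Continuous hh := by unfold hh; fun_prop
  obtain ⟨cA, cD, cz, Bk, hBk⟩ := hP1 n Rs J I k u hh hI hhc
  obtain ⟨cA', _, _, Bm, hBm⟩ := hP1 n Rs J I (k - 1) u hh hI hhc
  have cx := xx_cont (J := J) cz
  have cAD : Continuous (AD n Rs J I k u) := by
    unfold AD; exact (cA.norm.pow 2).mul (cD.norm.pow 2)
  have cAD' : Continuous (AD n Rs J I (k - 1) u) := by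
    unfold AD; exact (cA'.norm.pow 2).mul (cD.norm.pow 2)
  have AD0 : ∀ a t, 0 ≤ AD n Rs J I a u t := fun a t => by unfold AD; positivity
  have bAD : ∀ t, AD n Rs J I k u t ≤ Bk ^ 2 * Bk ^ 2 := fun t => by
    unfold AD
    have h1 := (hBk t).1
    have h2 := (hBk t).2.1
    gcongr
  have bAD' : ∀ t, AD n Rs J I (k - 1) u t ≤ Bm ^ 2 * Bm ^ 2 := fun t => by
    unfold AD
    have h1 := (hBm t).1
    have h2 := (hBm t).2.1
    gcongr
  have hz0 : ∀ t, ∀ i < J, ‖zz I t i‖ ≤ |Bk| := fun t i hi => ((hBk t).2.2 i hi).trans (le_abs_self _)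
  have bx : ∀ t, |xx I J t| ≤ J * |Bk| := fun t => by
    unfold xx
    refine (abs_sum_le_sum_abs _ _).trans ?_
    refine (sum_le_sum (g := fun _ => |Bk|) fun i hi =>
      (Complex.abs_re_le_norm _).trans (hz0 t i (mem_range.mp hi))).trans ?_
    simp
  -- integrability
  have iom : IntegrableOn (fun t => om κ (κ / T) t) (Set.Ioi 0) := om_int0 _ hδ
  have iF : ∀ {F : ℝ → ℝ} {C : ℝ}, Continuous F → (∀ t, |F t| ≤ C) →
      IntegrableOn (fun t => om κ (κ / T) t * F t) (Set.Ioi 0) := by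
    intro F C hF hC
    refine iom.mul_bdd (c := C) hF.aestronglyMeasurable (Eventually.of_forall fun t => ?_)
    rw [Real.norm_eq_abs]; exact hC t
  have j1 : IntegrableOn (fun t => wz κ T t * AD n Rs J I (k - 1) u t) (Set.Ioi 0) :=
    wz_int κ hδ cAD' (C := Bm ^ 2 * Bm ^ 2) fun t => by rw [abs_of_nonneg (AD0 _ _)]; exact bAD' t
  have j4 : IntegrableOn (fun t => om κ (κ / T) t * AD n Rs J I k u t) (Set.Ioi 0) :=
    iF cAD (C := Bk ^ 2 * Bk ^ 2) fun t => by rw [abs_of_nonneg (AD0 _ _)]; exact bAD t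
  have j3 : IntegrableOn (fun t => om κ (κ / T) t * ((xx I J t - u) ^ 2 * AD n Rs J I k u t)) (Set.Ioi 0) := by
    refine iF (((cx.sub continuous_const).pow 2).mul cAD) (C := (J * |Bk| + |u|) ^ 2 * (Bk ^ 2 * Bk ^ 2)) fun t => ?_
    rw [abs_of_nonneg (mul_nonneg (sq_nonneg _) (AD0 _ _)), ← sq_abs (xx I J t - u)]
    have h1 : |xx I J t - u| ≤ J * |Bk| + |u| := (abs_sub _ _).trans (by linarith [bx t])
    exact mul_le_mul (pow_le_pow_left₀ (abs_nonneg _) h1 2) (bAD t) (AD0 _ _) (by positivity)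
  have j2 : ∀ i ∈ range J, IntegrableOn (fun t => om κ (κ / T) t *
      ((‖zz I t i‖ / RR Rs i) ^ (2 * RR Rs i) * AD n Rs J I k u t)) (Set.Ioi 0) := by
    intro i hi
    refine iF ((((cz i).norm.div_const _).pow _).mul cAD)
      (C := (|Bk| / RR Rs i) ^ (2 * RR Rs i) * (Bk ^ 2 * Bk ^ 2)) fun t => ?_
    rw [abs_of_nonneg (mul_nonneg (by positivity) (AD0 _ _))]
    have h1 := hz0 t i (mem_range.mp hi)
    exact mul_le_mul (by gcongr) (bAD t) (AD0 _ _) (by positivity)
  have hGd : MeasurableSet {t | gd Rs J I t} := by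
    have : {t | gd Rs J I t} = ⋂ i, ⋂ (_ : i < J), {t | ‖zz I t i‖ ≤ RR Rs i} := by
      ext t; simp [gd]
    rw [this]
    exact MeasurableSet.iInter fun i => MeasurableSet.iInter fun _ =>
      measurableSet_le (cz i).norm.measurable measurable_const
  have hEG : MeasurableSet (E ∩ {t | gd Rs J I t}) := hE.inter hGd
  have hh0 : MeasurableSet {t | h t ≠ 0} := (isOpen_ne_fun hh1 continuous_const).measurableSet
  set S' : Set ℝ := SS Rs J I u B' c' M' ∩ (Eᶜ ∩ {t | h t ≠ 0}) with hS'def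
  have hSm : MeasurableSet S' := (SS_meas (Rs := Rs) (J := J) cz u B' c' M').inter
    (hE.compl.inter hh0)
  set G : ℝ := 64 * M' * Real.exp (2 * k * u + 2 * |k| * B') with hG
  have hG0 : 0 ≤ G := by positivity
  have j0 : IntegrableOn (fun t => S'.indicator (fun t => om κ (κ / T) t) t) (Set.Ioi 0) :=
    iom.indicator hSm
  have j6 : IntegrableOn (fun t => (E ∩ {t | gd Rs J I t}).indicator
      (fun t => om κ (κ / T) t * AD n Rs J I k u t) t) (Set.Ioi 0) := j4.indicator hEG
  -- the pointwise bound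
  have hpt : ∀ t ∈ Set.Ioi (0:ℝ), ‖((om κ (κ / T) t : ℝ) : ℂ) * (riemannZeta (cl t) *
          (h t * Pool.Agent.Q286.MC.BK n Rs J I k u t))‖ ≤
      G * S'.indicator (fun t => om κ (κ / T) t) t +
      (lam + 4 / M') * (wz κ T t * AD n Rs J I (k - 1) u t) +
      1 / (2 * lam) * (∑ i ∈ range J, om κ (κ / T) t *
        ((‖zz I t i‖ / RR Rs i) ^ (2 * RR Rs i) * AD n Rs J I k u t)) +
      1 / (2 * lam * B' ^ 2) * (om κ (κ / T) t * ((xx I J t - u) ^ 2 * AD n Rs J I k u t)) +
      16 * c' * (om κ (κ / T) t * AD n Rs J I k u t) +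
      1 / (2 * lam) * (E ∩ {t | gd Rs J I t}).indicator
        (fun t => om κ (κ / T) t * AD n Rs J I k u t) t := by
    intro t ht
    have hom : 0 ≤ om κ (κ / T) t := om_nn κ hδ (le_of_lt ht)
    by_cases hht : h t = 0
    · rw [hht, zero_mul, mul_zero, mul_zero, norm_zero]
      have q0 : 0 ≤ S'.indicator (fun t => om κ (κ / T) t) t := by
        by_cases hS : t ∈ S'
        · rw [Set.indicator_of_mem hS]; exact hom
        · rw [Set.indicator_of_notMem hS]
      have q5 : 0 ≤ (E ∩ {t | gd Rs J I t}).indicator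
          (fun t => om κ (κ / T) t * AD n Rs J I k u t) t := by
        by_cases hS : t ∈ E ∩ {t | gd Rs J I t}
        · rw [Set.indicator_of_mem hS]; exact mul_nonneg hom (AD0 _ _)
        · rw [Set.indicator_of_notMem hS]
      have q1 : 0 ≤ wz κ T t * AD n Rs J I (k - 1) u t := by
        have e3 : wz κ T t = om κ (κ / T) t * Xz t ^ 2 := rfl
        rw [e3]
        exact mul_nonneg (mul_nonneg hom (sq_nonneg _)) (AD0 _ _)
      have q2 : 0 ≤ ∑ i ∈ range J, om κ (κ / T) t *
          ((‖zz I t i‖ / RR Rs i) ^ (2 * RR Rs i) * AD n Rs J I k u t) :=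
        sum_nonneg fun i _ => mul_nonneg hom (mul_nonneg (by positivity) (AD0 _ _))
      have q3 : 0 ≤ om κ (κ / T) t * ((xx I J t - u) ^ 2 * AD n Rs J I k u t) :=
        mul_nonneg hom (mul_nonneg (sq_nonneg _) (AD0 _ _))
      have q4 : 0 ≤ om κ (κ / T) t * AD n Rs J I k u t := mul_nonneg hom (AD0 _ _)
      positivity
    have hgood := fun hg : gd Rs J I t => hP2 n Rs J (zz I t) hn hRs hg
    obtain ⟨good, hgd⟩ : ∃ good : Prop, (good ↔ gd Rs J I t ∧ t ∉ E) := ⟨_, Iff.rfl⟩
    obtain ⟨bb, hbb⟩ : ∃ bb : ℝ, bb = if t ∈ E ∧ gd Rs J I t then 1 else 0 := ⟨_, rfl⟩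
    have hbb0 : 0 ≤ bb := by
      rw [hbb]
      split_ifs <;> norm_num
    have habs : |k| ≤ n := by linarith
    have habs' : |k - 1| ≤ n := (abs_sub _ _).trans (by simpa using hk)
    have h1 := pw (X := Xz t) (A := ‖AZ n Rs J k (zz I t)‖) (A' := ‖AZ n Rs J (k - 1) (zz I t)‖)
      (D := ‖DK n Rs J hh u (zz I t)‖ ^ 2) (Xz_nonneg t) (norm_nonneg _) (norm_nonneg _) (by positivity)
      (x := xx I J t) (u := u) (k := k) hlam hB' hc' hM' hG0 (bad := bd Rs J I t + bb)
      (add_nonneg (bd_nonneg Rs J I t) hbb0)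
      (good := good)
      (fun hng => by
        by_cases hg : gd Rs J I t
        · have hE' : t ∈ E := by
            by_contra hno
            exact hng (hgd.2 ⟨hg, hno⟩)
          rw [hbb, if_pos ⟨hE', hg⟩]
          linarith [bd_nonneg Rs J I t]
        · have h3 := bd_one (Rs := Rs) hRs hg
          linarith) (fun hg => by
        obtain ⟨ha, _⟩ := hgood (hgd.1 hg).1
        have b1 := ha k habs
        have b2 := ha (k - 1) habs'
        exact ⟨b1.1, b1.2, b2.1, b2.2⟩) (fun hg hx _ hhi => by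
        obtain ⟨ha, hd⟩ := hgood (hgd.1 hg).1
        have b1 := (ha k habs).2
        have b2 := (ha (k - 1) habs').2
        have b3 := hd u
        change ‖AZ n Rs J k (zz I t)‖ ≤ 2 * Real.exp (k * xx I J t) at b1
        change ‖AZ n Rs J (k - 1) (zz I t)‖ ≤ 2 * Real.exp ((k - 1) * xx I J t) at b2
        have b4 : ‖DK n Rs J hh u (zz I t)‖ ^ 2 ≤ 16 := by
          have := pow_le_pow_left₀ (norm_nonneg _) b3 2
          linarith
        calc Xz t * (‖AZ n Rs J k (zz I t)‖ * ‖AZ n Rs J (k - 1) (zz I t)‖) * ‖DK n Rs J hh u (zz I t)‖ ^ 2 ≤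
            (M' * Real.exp (xx I J t)) * ((2 * Real.exp (k * xx I J t)) * (2 * Real.exp ((k - 1) * xx I J t))) * 16 := by
              gcongr
          _ = 64 * M' * (Real.exp (xx I J t) * Real.exp (k * xx I J t) * Real.exp ((k - 1) * xx I J t)) := by ring
          _ = 64 * M' * Real.exp (2 * k * xx I J t) := by
              rw [← Real.exp_add, ← Real.exp_add]; congr 2; ring
          _ ≤ G := by
              rw [hG]
              refine mul_le_mul_of_nonneg_left (Real.exp_le_exp.mpr ?_) (by positivity)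
              have h5 : k * (xx I J t - u) ≤ |k| * B' := by
                refine (le_abs_self _).trans ?_
                rw [abs_mul]
                exact mul_le_mul_of_nonneg_left hx (abs_nonneg _)
              linarith)
    have h2 := mul_le_mul_of_nonneg_left h1 hom
    have e1 : ‖((om κ (κ / T) t : ℝ) : ℂ) * (riemannZeta (cl t) *
          (h t * Pool.Agent.Q286.MC.BK n Rs J I k u t))‖ =
        ‖h t‖ * (om κ (κ / T) t * (Xz t * (‖AZ n Rs J k (zz I t)‖ * ‖AZ n Rs J (k - 1) (zz I t)‖) *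
          ‖DK n Rs J hh u (zz I t)‖ ^ 2)) := by
      unfold Pool.Agent.Q286.MC.BK
      rw [norm_mul, norm_mul, norm_mul, norm_mul, norm_mul, RCLike.norm_conj, Complex.norm_real,
        Complex.norm_real, Real.norm_of_nonneg hom, Real.norm_of_nonneg (by positivity)]
      unfold Xz; ring
    rw [e1]
    have h2' : 0 ≤ om κ (κ / T) t * (Xz t * (‖AZ n Rs J k (zz I t)‖ *
        ‖AZ n Rs J (k - 1) (zz I t)‖) * ‖DK n Rs J hh u (zz I t)‖ ^ 2) :=
      mul_nonneg hom (mul_nonneg (mul_nonneg (Xz_nonneg t) (by positivity)) (by positivity))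
    refine (mul_le_of_le_one_left h2' (hhn t)).trans (h2.trans (le_of_eq ?_))
    have e2 : om κ (κ / T) t * (if good ∧ |xx I J t - u| ≤ B' ∧
        c' * Real.exp (xx I J t) ≤ Xz t ∧ Xz t ≤ M' * Real.exp (xx I J t) then G else 0) =
        G * S'.indicator (fun t => om κ (κ / T) t) t := by
      by_cases hS : good ∧ |xx I J t - u| ≤ B' ∧ c' * Real.exp (xx I J t) ≤ Xz t ∧
          Xz t ≤ M' * Real.exp (xx I J t)
      · have hS' : t ∈ S' := ⟨⟨(hgd.1 hS.1).1, hS.2⟩, (hgd.1 hS.1).2, hht⟩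
        rw [Set.indicator_of_mem hS', if_pos hS]; ring
      · have hS' : t ∉ S' := fun hm => hS ⟨hgd.2 ⟨hm.1.1, hm.2.1⟩, hm.1.2⟩
        rw [Set.indicator_of_notMem hS', if_neg hS]; ring
    have e3 : wz κ T t = om κ (κ / T) t * Xz t ^ 2 := rfl
    have e4 : ∑ i ∈ range J, om κ (κ / T) t * ((‖zz I t i‖ / RR Rs i) ^ (2 * RR Rs i) *
        AD n Rs J I k u t) = om κ (κ / T) t * (bd Rs J I t * AD n Rs J I k u t) := by
      unfold bd
      rw [sum_mul, mul_sum]
    have e5 : (E ∩ {t | gd Rs J I t}).indicator (fun t => om κ (κ / T) t * AD n Rs J I k u t) t =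
        bb * (om κ (κ / T) t * AD n Rs J I k u t) := by
      rw [hbb]
      by_cases hS : t ∈ E ∧ gd Rs J I t
      · have hS' : t ∈ E ∩ {t | gd Rs J I t} := hS
        rw [Set.indicator_of_mem hS', if_pos hS, one_mul]
      · have hS' : t ∉ E ∩ {t | gd Rs J I t} := hS
        rw [Set.indicator_of_notMem hS', if_neg hS, zero_mul]
    rw [mul_add, mul_add, mul_add, mul_add, e2, e3, e4, e5]
    unfold AD
    ring
  refine (Complex.re_le_norm _).trans ((norm_integral_le_integral_norm _).trans ?_)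
  have i1 := j0.const_mul G
  have i2 := j1.const_mul (lam + 4 / M')
  have i3 := (integrable_finsetSum _ j2).const_mul (1 / (2 * lam))
  have i4 := j3.const_mul (1 / (2 * lam * B' ^ 2))
  have i5 := j4.const_mul (16 * c')
  have i6 := j6.const_mul (1 / (2 * lam))
  have hle := integral_mono_of_nonneg (μ := volume.restrict (Set.Ioi (0:ℝ)))
    (Eventually.of_forall fun t => norm_nonneg _) (((((i1.add i2).add i3).add i4).add i5).add i6)
    ((ae_restrict_iff' measurableSet_Ioi).mpr (Eventually.of_forall fun t ht => by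
      simpa only [Pi.add_apply] using hpt t ht))
  refine hle.trans (le_of_eq ?_)
  rw [integral_add' ((((i1.add i2).add i3).add i4).add i5) i6,
    integral_add' (((i1.add i2).add i3).add i4) i5, integral_add' ((i1.add i2).add i3) i4,
    integral_add' (i1.add i2) i3, integral_add' i1 i2, integral_const_mul, integral_const_mul,
    integral_const_mul, integral_const_mul, integral_const_mul, integral_const_mul,
    integral_finsetSum _ j2, setIntegral_indicator hSm, setIntegral_indicator hEG]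

end

end Pool.Agent.Q285.MC
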