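import Pool.Agent.Q286.MC.Defs
import Pool.Agent.TH626.LK_EXP

/-! # Project MC of helper286, job MVD: the mean value theorem in the windows -/

set_option autoImplicit false

namespace Pool.Agent.Q285.MC

open Finset Filter Topology MeasureTheory Complex MonoidAlgebra
open Pool.Agent.W184.NZ
open Pool.Agent.TH806 Pool.Agent.TH806.LK
open Pool.Agent.H306R2.SM (om cl Yf)
open Pool.Agent.H262R4.TM (Rng Ck)

noncomputable section

theorem mh_avg {N : ℝ} {κ : ℕ} {T : ℝ} (hT : 0 < T) (hκ : 1 ≤ κ) (hN : 1 ≤ N)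
    (h1 : N * κ / T ≤ 1) {m n : ℕ} (hm : m ≠ 0) (hn : n ≠ 0) (hmN : (m:ℝ) ≤ N) (hnN : (n:ℝ) ≤ N) :
    IntegrableOn (fun t : ℝ => ((om κ (κ / T) t : ℝ) : ℂ) * mh t (m, n)) (Set.Ioi 0) ∧
    ‖(∫ t in Set.Ioi (0:ℝ), ((om κ (κ / T) t : ℝ) : ℂ) * mh t (m, n)) - ((w0 (m, n) : ℝ) : ℂ)‖ ≤
      N * κ / T := by
  have h := Pool.Agent.TH626.LK_EXP.avgOc (f := (single (m, n) 1 : DA))
    (Bd.single ⟨⟨hm, hn⟩, hmN, hnN⟩ 1) hT hκ hN h1
  simp only [ev_single, lam_single, l1_single, Complex.ofReal_one, one_mul, abs_one, mul_one] at h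
  exact h

theorem mh_split (t : ℝ) {d e : ℕ} (he : e ≠ 0) :
    mh t (d, e) = (d : ℂ) ^ (-(1 / 2 + t * Complex.I)) *
      starRingEnd ℂ ((e : ℂ) ^ (-(1 / 2 + t * Complex.I))) := by
  rw [← natCast_cpow_conj e he]
  have h1 : (starRingEnd ℂ) (-(1 / 2 + (t:ℂ) * Complex.I)) = -(1 / 2 - (t:ℂ) * Complex.I) := by
    rw [map_neg, map_add, map_mul, Complex.conj_ofReal, Complex.conj_I, map_div₀, map_one,
      map_ofNat]
    ring
  rw [h1]
  rfl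

theorem sq_exp (X : ℕ) (f : ℕ → ℂ) (t : ℝ) :
    ((‖∑ d ∈ Icc 1 X, f d * (d : ℂ) ^ (-(1 / 2 + t * Complex.I))‖ ^ 2 : ℝ) : ℂ) =
      ∑ d ∈ Icc 1 X, ∑ e ∈ Icc 1 X, (f d * starRingEnd ℂ (f e)) * mh t (d, e) := by
  rw [Complex.ofReal_pow, ← Complex.mul_conj', map_sum, sum_mul_sum]
  refine sum_congr rfl fun d _ => sum_congr rfl fun e he => ?_
  rw [mem_Icc] at he
  rw [mh_split t (d := d) (e := e) (by omega), map_mul]
  ring

theorem ev_small : ∀ᶠ T : ℝ in atTop, 1 ≤ T ∧ 1 ≤ Real.log T ∧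
    4 * Real.log T ^ 2 ≤ T ^ (1 / 4 : ℝ) := by
  have h := (isLittleO_log_rpow_atTop (show (0:ℝ) < 1 / 8 by norm_num)).bound
    (show (0:ℝ) < 1 / 2 by norm_num)
  filter_upwards [h, eventually_ge_atTop (1:ℝ), Real.tendsto_log_atTop.eventually_ge_atTop 1]
    with T h1 hT1 hL1
  have hT0 : 0 < T := by linarith
  have hL : 0 ≤ Real.log T := by linarith
  rw [Real.norm_eq_abs, Real.norm_eq_abs, abs_of_nonneg hL, abs_of_nonneg (by positivity)] at h1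
  have h3 : T ^ (1 / 8 : ℝ) * T ^ (1 / 8 : ℝ) = T ^ (1 / 4 : ℝ) := by
    rw [← Real.rpow_add hT0]; norm_num
  have h5 : Real.log T ^ 2 ≤ (1 / 2 * T ^ (1 / 8 : ℝ)) ^ 2 := pow_le_pow_left₀ hL h1 2
  exact ⟨hT1, hL1, by nlinarith⟩

/-- **Job MVD.** -/
theorem mvd : Pool.Agent.Q286.MC.P_MVD := by
  filter_upwards [ev_small] with T hT κ hκ X hX f
  obtain ⟨hT1, hL1, hsm⟩ := hT
  have hT0 : 0 < T := by linarith
  have hκ1R : (1:ℝ) ≤ κ := by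
    have := hκ.1
    nlinarith
  have hκ1 : 1 ≤ κ := by exact_mod_cast hκ1R
  have hκ4 : (κ:ℝ) ≤ T ^ (1 / 4 : ℝ) := hκ.2.trans hsm
  set N : ℝ := T ^ (1 / 4 : ℝ) with hN
  have hN1 : 1 ≤ N := Real.one_le_rpow hT1 (by norm_num)
  have hcN : N * κ / T ≤ T ^ (-(1 / 2) : ℝ) := by
    rw [div_le_iff₀ hT0]
    have h2 : T ^ (-(1 / 2) : ℝ) * T = N * N := by
      rw [hN, ← Real.rpow_add hT0]
      nth_rewrite 2 [← Real.rpow_one T]
      rw [← Real.rpow_add hT0]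
      norm_num
    rw [h2]
    exact mul_le_mul_of_nonneg_left hκ4 (by positivity)
  have hcN1 : N * κ / T ≤ 1 :=
    hcN.trans (Real.rpow_le_one_of_one_le_of_nonpos hT1 (by norm_num))
  have hav : ∀ d ∈ Icc 1 X, ∀ e ∈ Icc 1 X,
      IntegrableOn (fun t : ℝ => ((om κ (κ / T) t : ℝ) : ℂ) * mh t (d, e)) (Set.Ioi 0) ∧
      ‖(∫ t in Set.Ioi (0:ℝ), ((om κ (κ / T) t : ℝ) : ℂ) * mh t (d, e)) -
        ((w0 (d, e) : ℝ) : ℂ)‖ ≤ T ^ (-(1 / 2) : ℝ) := by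
    intro d hd e he
    rw [mem_Icc] at hd he
    have h1 := mh_avg (m := d) (n := e) hT0 hκ1 hN1 hcN1 (by omega) (by omega)
      (le_trans (by exact_mod_cast hd.2) hX) (le_trans (by exact_mod_cast he.2) hX)
    exact ⟨h1.1, h1.2.trans hcN⟩
  -- the integral as a double sum
  have e1 : (((∫ t in Set.Ioi (0:ℝ), om κ (κ / T) t *
      ‖∑ d ∈ Icc 1 X, f d * (d : ℂ) ^ (-(1 / 2 + t * Complex.I))‖ ^ 2 : ℝ)) : ℂ) =
      ∑ d ∈ Icc 1 X, ∑ e ∈ Icc 1 X, (f d * starRingEnd ℂ (f e)) *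
        ∫ t in Set.Ioi (0:ℝ), ((om κ (κ / T) t : ℝ) : ℂ) * mh t (d, e) := by
    have h0 := integral_ofReal (𝕜 := ℂ) (μ := volume.restrict (Set.Ioi (0:ℝ)))
      (f := fun t : ℝ => om κ (κ / T) t *
        ‖∑ d ∈ Icc 1 X, f d * (d : ℂ) ^ (-(1 / 2 + t * Complex.I))‖ ^ 2)
    refine Eq.trans h0.symm ?_
    have h1 : ∀ t : ℝ, ((om κ (κ / T) t *
        ‖∑ d ∈ Icc 1 X, f d * (d : ℂ) ^ (-(1 / 2 + t * Complex.I))‖ ^ 2 : ℝ) : ℂ) =
        ∑ d ∈ Icc 1 X, ∑ e ∈ Icc 1 X, (f d * starRingEnd ℂ (f e)) *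
          (((om κ (κ / T) t : ℝ) : ℂ) * mh t (d, e)) := by
      intro t
      rw [Complex.ofReal_mul, sq_exp, mul_sum]
      refine sum_congr rfl fun d _ => ?_
      rw [mul_sum]
      exact sum_congr rfl fun e _ => by ring
    have h2 : ∫ t in Set.Ioi (0:ℝ), (((om κ (κ / T) t *
        ‖∑ d ∈ Icc 1 X, f d * (d : ℂ) ^ (-(1 / 2 + t * Complex.I))‖ ^ 2 : ℝ)) : ℂ) =
        ∫ t in Set.Ioi (0:ℝ), ∑ d ∈ Icc 1 X, ∑ e ∈ Icc 1 X, (f d * starRingEnd ℂ (f e)) *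
          (((om κ (κ / T) t : ℝ) : ℂ) * mh t (d, e)) := by
      refine integral_congr_ae (Eventually.of_forall fun t => ?_)
      exact h1 t
    refine h2.trans ?_
    rw [integral_finsetSum _ fun d hd => integrable_finsetSum _ fun e he =>
      (hav d hd e he).1.const_mul _]
    refine sum_congr rfl fun d hd => ?_
    rw [integral_finsetSum _ fun e he => (hav d hd e he).1.const_mul _]
    exact sum_congr rfl fun e _ => integral_const_mul _ _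
  -- the diagonal
  have e2 : ((∑ d ∈ Icc 1 X, ‖f d‖ ^ 2 / (d : ℝ) : ℝ) : ℂ) =
      ∑ d ∈ Icc 1 X, ∑ e ∈ Icc 1 X, (f d * starRingEnd ℂ (f e)) * ((w0 (d, e) : ℝ) : ℂ) := by
    rw [Complex.ofReal_sum]
    refine sum_congr rfl fun d hd => ?_
    rw [Finset.sum_eq_single d]
    · have h1 : w0 (d, d) = 1 / (d:ℝ) := by
        unfold w0
        rw [if_pos rfl]
      rw [h1, Complex.mul_conj']
      push_cast
      ring
    · intro e _ hed
      have h1 : w0 (d, e) = 0 := by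
        unfold w0
        rw [if_neg fun h => hed h.symm]
      rw [h1, Complex.ofReal_zero, mul_zero]
    · intro h
      exact absurd hd h
  have e3 : ‖(((∫ t in Set.Ioi (0:ℝ), om κ (κ / T) t *
      ‖∑ d ∈ Icc 1 X, f d * (d : ℂ) ^ (-(1 / 2 + t * Complex.I))‖ ^ 2 : ℝ)) : ℂ) -
      ((∑ d ∈ Icc 1 X, ‖f d‖ ^ 2 / (d : ℝ) : ℝ) : ℂ)‖ ≤
      T ^ (-(1 / 2) : ℝ) * (∑ d ∈ Icc 1 X, ‖f d‖) ^ 2 := by
    rw [e1, e2, ← sum_sub_distrib, sq, sum_mul_sum, mul_sum]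
    refine (norm_sum_le _ _).trans (sum_le_sum fun d hd => ?_)
    rw [← sum_sub_distrib, mul_sum]
    refine (norm_sum_le _ _).trans (sum_le_sum fun e he => ?_)
    rw [← mul_sub, norm_mul, norm_mul, RCLike.norm_conj, mul_comm]
    exact mul_le_mul_of_nonneg_right (hav d hd e he).2 (by positivity)
  rw [← Complex.ofReal_sub, Complex.norm_real, Real.norm_eq_abs] at e3
  have e4 := (le_abs_self _).trans e3
  linarith

end

end Pool.Agent.Q285.MC
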