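import Mathlib

/-! # Project MC of helper286, job SUMA: the multiplicative majorant -/

set_option autoImplicit false

namespace Pool.Agent.Q285.MC

open Finset

noncomputable section

/-- the function of the job -/
def am (P : Finset ℕ) (a : ℝ) (d : ℕ) : ℝ :=
  open Classical in
  if d ≠ 0 ∧ (∀ p : ℕ, p.Prime → p ∣ d → p ∈ P) then
    ∏ p ∈ d.primeFactors, a ^ (d.factorization p) / ((d.factorization p).factorial : ℝ) else 0

variable {P : Finset ℕ} {a : ℝ}

theorem am_of (d : ℕ) (h : d ≠ 0 ∧ (∀ p : ℕ, p.Prime → p ∣ d → p ∈ P)) (Q : Finset ℕ)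
    (hQ : d.primeFactors ⊆ Q) :
    am P a d = ∏ p ∈ Q, a ^ (d.factorization p) / ((d.factorization p).factorial : ℝ) := by
  rw [am, if_pos h]
  refine prod_subset hQ fun p _ hp => ?_
  have h1 : d.factorization p = 0 := by
    rw [← Nat.support_factorization, Finsupp.notMem_support_iff] at hp
    exact hp
  rw [h1]
  simp

theorem am_not (d : ℕ) (h : ¬ (d ≠ 0 ∧ (∀ p : ℕ, p.Prime → p ∣ d → p ∈ P))) : am P a d = 0 := by
  rw [am, if_neg h]

theorem am_nonneg (ha : 0 ≤ a) (d : ℕ) : 0 ≤ am P a d := by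
  by_cases h : d ≠ 0 ∧ (∀ p : ℕ, p.Prime → p ∣ d → p ∈ P)
  · rw [am_of d h _ subset_rfl]
    exact prod_nonneg fun p _ => by positivity
  · rw [am_not d h]

theorem am_mul (ha : 0 ≤ a) (u v : ℕ) : am P a (u * v) ≤ am P a u * am P a v := by
  by_cases h : u * v ≠ 0 ∧ (∀ p : ℕ, p.Prime → p ∣ u * v → p ∈ P)
  · have hu0 : u ≠ 0 := left_ne_zero_of_mul h.1
    have hv0 : v ≠ 0 := right_ne_zero_of_mul h.1
    have hu : u ≠ 0 ∧ (∀ p : ℕ, p.Prime → p ∣ u → p ∈ P) :=
      ⟨hu0, fun p hp hd => h.2 p hp (hd.mul_right v)⟩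
    have hv : v ≠ 0 ∧ (∀ p : ℕ, p.Prime → p ∣ v → p ∈ P) :=
      ⟨hv0, fun p hp hd => h.2 p hp (hd.mul_left u)⟩
    rw [am_of _ h _ subset_rfl, am_of u hu (u * v).primeFactors
      (Nat.primeFactors_mono (dvd_mul_right u v) h.1), am_of v hv (u * v).primeFactors
      (Nat.primeFactors_mono (dvd_mul_left v u) h.1), ← prod_mul_distrib]
    refine prod_le_prod (fun p _ => by positivity) fun p _ => ?_
    rw [Nat.factorization_mul hu0 hv0, Finsupp.add_apply]
    set x := u.factorization p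
    set y := v.factorization p
    have h1 : ((x.factorial : ℝ) * (y.factorial : ℝ)) ≤ ((x + y).factorial : ℝ) := by
      exact_mod_cast Nat.le_of_dvd (Nat.factorial_pos _) (Nat.factorial_mul_factorial_dvd_factorial_add x y)
    have h2 : (0:ℝ) < (x.factorial : ℝ) * (y.factorial : ℝ) := by positivity
    calc a ^ (x + y) / ((x + y).factorial : ℝ) ≤ a ^ (x + y) / ((x.factorial : ℝ) * y.factorial) :=
          div_le_div_of_nonneg_left (by positivity) h2 h1
      _ = a ^ x / (x.factorial : ℝ) * (a ^ y / (y.factorial : ℝ)) := by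
          rw [pow_add, div_mul_div_comm]
  · rw [am_not _ h]
    exact mul_nonneg (am_nonneg ha u) (am_nonneg ha v)

theorem am_le (ha : 0 ≤ a) {ε : ℝ} (hP : ∀ p ∈ P, p.Prime) (hε : 0 ≤ ε)
    (h : ∀ p ∈ P, a ≤ (p:ℝ) ^ ε) (d : ℕ) : am P a d ≤ (d:ℝ) ^ ε := by
  by_cases hd : d ≠ 0 ∧ (∀ p : ℕ, p.Prime → p ∣ d → p ∈ P)
  · rw [am_of d hd _ subset_rfl]
    have h1 : (d:ℝ) ^ ε = ∏ p ∈ d.primeFactors, ((p:ℝ) ^ ε) ^ (d.factorization p) := by
      conv_lhs => rw [← Nat.prod_factorization_pow_eq_self hd.1]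
      rw [Finsupp.prod, Nat.support_factorization, Nat.cast_prod,
        ← Real.finsetProd_rpow _ _ (fun p _ => by positivity)]
      refine prod_congr rfl fun p _ => ?_
      rw [Nat.cast_pow, ← Real.rpow_natCast, ← Real.rpow_natCast, ← Real.rpow_mul (by positivity),
        ← Real.rpow_mul (by positivity), mul_comm]
    rw [h1]
    refine prod_le_prod (fun p _ => by positivity) fun p hp => ?_
    have hp' : p ∈ P := hd.2 p (Nat.prime_of_mem_primeFactors hp) (Nat.dvd_of_mem_primeFactors hp)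
    calc a ^ (d.factorization p) / ((d.factorization p).factorial : ℝ) ≤
        a ^ (d.factorization p) := div_le_self (by positivity)
          (by exact_mod_cast Nat.one_le_iff_ne_zero.2 (Nat.factorial_ne_zero _))
      _ ≤ ((p:ℝ) ^ ε) ^ (d.factorization p) := pow_le_pow_left₀ ha (h p hp') _
  · rw [am_not d hd]
    positivity

theorem am_sum (hP : ∀ p ∈ P, p.Prime) (X : ℕ) :
    ∑ d ∈ Icc 1 X, am P a d ^ 2 / (d : ℝ) ≤ Real.exp (a ^ 2 * ∑ p ∈ P, 1 / (p:ℝ)) := by
  classical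
  set s : Finset ℕ := (Icc 1 X).filter fun d => d ≠ 0 ∧ (∀ p : ℕ, p.Prime → p ∣ d → p ∈ P)
    with hs
  have h1 : ∑ d ∈ Icc 1 X, am P a d ^ 2 / (d : ℝ) = ∑ d ∈ s, am P a d ^ 2 / (d : ℝ) := by
    symm
    refine sum_subset (filter_subset _ _) fun d hd hd' => ?_
    have h2 : ¬ (d ≠ 0 ∧ (∀ p : ℕ, p.Prime → p ∣ d → p ∈ P)) := fun h =>
      hd' (mem_filter.2 ⟨hd, h⟩)
    rw [am_not d h2]
    simp
  rw [h1]
  let φ : ℕ → (↥P → ℕ) := fun d p => d.factorization p
  let H : (↥P → ℕ) → ℝ := fun f => ∏ p : ↥P, (a ^ (f p) / ((f p).factorial : ℝ)) ^ 2 /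
    (((p : ℕ) : ℝ)) ^ (f p)
  have hsub : ∀ d ∈ s, d.primeFactors ⊆ P := by
    intro d hd p hp
    rw [hs, mem_filter] at hd
    exact hd.2.2 p (Nat.prime_of_mem_primeFactors hp) (Nat.dvd_of_mem_primeFactors hp)
  have hval : ∀ d ∈ s, am P a d ^ 2 / (d : ℝ) = H (φ d) := by
    intro d hd
    have hd2 := (mem_filter.1 hd).2
    have h2 : (d:ℝ) = ∏ p ∈ P, (p:ℝ) ^ (d.factorization p) := by
      conv_lhs => rw [← Nat.prod_factorization_pow_eq_self hd2.1]
      rw [Finsupp.prod, Nat.support_factorization, Nat.cast_prod]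
      rw [prod_subset (hsub d hd) (f := fun p => (((p ^ (d.factorization p) : ℕ)) : ℝ))]
      · exact prod_congr rfl fun p _ => by rw [Nat.cast_pow]
      · intro p _ hp
        rw [← Nat.support_factorization, Finsupp.notMem_support_iff] at hp
        simp [hp]
    rw [am_of d hd2 P (hsub d hd), h2, ← prod_pow, ← prod_div_distrib]
    rw [← prod_coe_sort]
  have hinj : Set.InjOn φ (s : Set ℕ) := by
    intro x hx y hy hxy
    have hx' := (mem_filter.1 (mem_coe.1 hx)).2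
    have hy' := (mem_filter.1 (mem_coe.1 hy)).2
    refine Nat.eq_of_factorization_eq hx'.1 hy'.1 fun p => ?_
    by_cases hp : p ∈ P
    · exact congrFun hxy ⟨p, hp⟩
    · have hz : ∀ d ∈ s, d.factorization p = 0 := by
        intro d hd
        rw [← Finsupp.notMem_support_iff, Nat.support_factorization]
        exact fun h => hp (hsub d hd h)
      rw [hz x (mem_coe.1 hx), hz y (mem_coe.1 hy)]
  rw [sum_congr rfl hval, ← sum_image (f := H) hinj]
  have hsub2 : s.image φ ⊆ Fintype.piFinset fun _ : ↥P => range (X + 1) := by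
    intro f hf
    rw [mem_image] at hf
    obtain ⟨d, hd, rfl⟩ := hf
    rw [Fintype.mem_piFinset]
    intro p
    rw [mem_range]
    have h2 := (mem_filter.1 hd).1
    rw [mem_Icc] at h2
    have h3 : d.factorization (p:ℕ) < d := Nat.factorization_lt _ (by omega)
    show d.factorization (p:ℕ) < X + 1
    omega
  refine (sum_le_sum_of_subset_of_nonneg hsub2 fun f _ _ => prod_nonneg fun p _ => by
    positivity).trans ?_
  have h4 : ∑ f ∈ Fintype.piFinset fun _ : ↥P => range (X + 1), H f =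
      ∏ p : ↥P, ∑ v ∈ range (X + 1), (a ^ v / (v.factorial : ℝ)) ^ 2 / (((p : ℕ) : ℝ)) ^ v :=
    (prod_univ_sum (fun _ : ↥P => range (X + 1)) fun (p : ↥P) (v : ℕ) =>
      (a ^ v / (v.factorial : ℝ)) ^ 2 / (((p : ℕ) : ℝ)) ^ v).symm
  rw [h4, mul_sum, Real.exp_sum, ← prod_coe_sort P]
  refine prod_le_prod (fun p _ => sum_nonneg fun v _ => by positivity) fun p _ => ?_
  have hp0 : (0:ℝ) < ((p:ℕ):ℝ) := by exact_mod_cast (hP p p.2).pos
  refine le_trans (sum_le_sum fun v _ => ?_) (Real.sum_le_exp_of_nonneg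
    (show 0 ≤ a ^ 2 * (1 / ((p:ℕ):ℝ)) by positivity) (X + 1))
  have h5 : (1:ℝ) ≤ (v.factorial : ℝ) := by
    exact_mod_cast Nat.one_le_iff_ne_zero.2 (Nat.factorial_ne_zero _)
  calc (a ^ v / (v.factorial : ℝ)) ^ 2 / (((p : ℕ) : ℝ)) ^ v =
      ((a ^ 2 * (1 / ((p:ℕ):ℝ))) ^ v / (v.factorial : ℝ)) / (v.factorial : ℝ) := by
        rw [mul_pow, one_div, inv_pow]
        field_simp
        ring
    _ ≤ (a ^ 2 * (1 / ((p:ℕ):ℝ))) ^ v / (v.factorial : ℝ) := div_le_self (by positivity) h5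

end

end Pool.Agent.Q285.MC
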