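import Pool.Agent.Q286.MC.Defs
import Pool.Agent.Q285.MC.SumaCore

/-! # Project MC of helper286, job SUMA -/

set_option autoImplicit false

namespace Pool.Agent.Q285.MC

/-- **Job SUMA.** -/
theorem suma : Pool.Agent.Q286.MC.P_SUMA := by
  intro P a hP ha
  exact ⟨fun d => am_nonneg ha d, fun u v => am_mul ha u v, fun X => am_sum hP X,
    fun ε hε h d => am_le ha hP hε h d⟩

end Pool.Agent.Q285.MC
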